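import Mathlib

/-!
# Beurling–Ahlfors powers: common definitions (MP_3dd6d4_an, helper72)
-/

set_option autoImplicit false

open MeasureTheory Complex FourierTransform
open scoped ENNReal NNReal

noncomputable section

namespace Helper72.BA

/-- Test functions: measurable, integrable, bounded. -/
structure Nice (f : ℂ → ℂ) : Prop where
  meas : Measurable f
  int : Integrable f
  bdd : ∃ C : ℝ, ∀ z, ‖f z‖ ≤ C

/-- Convolution of `K` with `f`. -/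
def cv (K f : ℂ → ℂ) (z : ℂ) : ℂ := ∫ w, K (z - w) * f w

/-- `psi t = 1` for `t ≤ 1`, `0` for `t ≥ 2`, smooth, between 0 and 1. -/
def psi (t : ℝ) : ℝ := Real.smoothTransition (2 - t)

/-- Radial low pass cutoff at frequency `2^i`. -/
def Psi (i : ℤ) (ξ : ℂ) : ℝ := psi ((2 : ℝ) ^ (-i) * ‖ξ‖)

/-- Smooth cutoff to the annulus `2^(j-1) ≤ |ξ| ≤ 2^(j+1)`. -/
def chi (j : ℤ) (ξ : ℂ) : ℝ := Psi j ξ - Psi (j - 1) ξ

/-- The multiplier of `T^n`. -/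
def mult (n : ℕ) (ξ : ℂ) : ℂ := (starRingEnd ℂ ξ / ξ) ^ n

/-- Kernel of `T^n` restricted to the `j`-th annulus. -/
def KK (n : ℕ) (j : ℤ) : ℂ → ℂ := 𝓕⁻ (fun ξ : ℂ => mult n ξ * (chi j ξ : ℂ))

/-- Low pass kernel. -/
def kap (i : ℤ) : ℂ → ℂ := 𝓕⁻ (fun ξ : ℂ => (Psi i ξ : ℂ))

/-- `g_j = K_j * f`. -/
def gj (n : ℕ) (j : ℤ) (f : ℂ → ℂ) : ℂ → ℂ := cv (KK n j) f

/-- `g_W = ∑_{j ∈ W} K_j * f`. -/
def gW (n : ℕ) (W : Finset ℤ) (f : ℂ → ℂ) : ℂ → ℂ := fun z => ∑ j ∈ W, gj n j f z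

/-- The weight `ρ^{-2} (1+|z|²/ρ²)^{-2}`. -/
def gam (ρ : ℝ) (z : ℂ) : ℝ := (ρ ^ 2)⁻¹ * ((1 + ‖z‖ ^ 2 / ρ ^ 2) ^ 2)⁻¹

/-- `∫ |f|^p` (natural exponent) in `[0,∞]`. -/
def nrm (p : ℕ) (f : ℂ → ℂ) : ℝ≥0∞ := ∫⁻ z, ‖f z‖ₑ ^ p

/-- Convolution of nonnegative functions. -/
def lc (a b : ℂ → ℝ≥0∞) : ℂ → ℝ≥0∞ := fun s => ∫⁻ t, a t * b (s - t)

/-- `lcp a j` is the `(j+1)`-fold convolution power of `a`. -/
def lcp (a : ℂ → ℝ≥0∞) : ℕ → (ℂ → ℝ≥0∞)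
  | 0 => a
  | (j + 1) => lc (lcp a j) a

/-- The constant `A_p`, `p = 2k`. -/
def Ak (k : ℕ) : ℝ := Real.Gamma (1 / (2 * k)) / Real.Gamma (1 - 1 / (2 * k))

/-- A kernel that is a Schwartz function. -/
def Ker (K : ℂ → ℂ) : Prop := ∃ s : SchwartzMap ℂ ℂ, K = s

/-- index of the square of side `s*2^{-j}` containing `z` -/
def cub (s : ℝ) (j : ℤ) (z : ℂ) : ℤ × ℤ := (⌊z.re / (s * 2 ^ (-j))⌋, ⌊z.im / (s * 2 ^ (-j))⌋)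

/-- average of `G` over the square of generation `j` containing `z` -/
def avg (s : ℝ) (j : ℤ) (G : ℂ → ℝ≥0∞) (z : ℂ) : ℝ≥0∞ :=
  ENNReal.ofReal ((s * 2 ^ (-j)) ^ 2)⁻¹ * ∫⁻ w in {w : ℂ | cub s j w = cub s j z}, G w

/-- constant of the Riesz composition formula -/
def Gc (a : ℝ) : ℝ := Real.pi * Real.Gamma (a / 2) / Real.Gamma (1 - a / 2)

/-- average against the Gamma(n) distribution -/
def Eg (n : ℕ) (h : ℝ → ℝ) : ℝ :=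
  (Real.Gamma n)⁻¹ * ∫ y in Set.Ioi (0:ℝ), h y * y ^ (n - 1) * Real.exp (-y)

/-- average against the Gamma(n+1) distribution -/
def Eg' (n : ℕ) (h : ℝ → ℝ) : ℝ :=
  (Real.Gamma (n + 1))⁻¹ * ∫ y in Set.Ioi (0:ℝ), h y * y ^ n * Real.exp (-y)

/-- the full kernel of `T^n` -/
def Kn (n : ℕ) (z : ℂ) : ℂ :=
  (-1) ^ n * (n / Real.pi : ℝ) * (starRingEnd ℂ z / z) ^ n / (‖z‖ ^ 2 : ℝ)

/-- radial profile of `∑_{0 ≤ j < b} chi j` -/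
def cW (b : ℕ) (t : ℝ) : ℝ := psi ((2:ℝ) ^ (1 - (b : ℤ)) * t) - psi (2 * t)

/-- explicit approximate kernel of the window `[0,b)` -/
def Kt (n b : ℕ) (u : ℂ) : ℂ := (cW b (n / (Real.pi * ‖u‖)) : ℂ) * Kn n u

/-- kernel of the window `[0,b)` -/
def KWn (n b : ℕ) (u : ℂ) : ℂ := ∑ j ∈ Finset.Ico (0:ℤ) b, KK n j u

/-- frequency of `T^n` at displacement `w` -/
def etaw (n : ℕ) (w : ℂ) : ℂ := (n / Real.pi : ℝ) * I / (starRingEnd ℂ w)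

/-- the character `e^{2πi⟨z,η⟩}` -/
def ch (z η : ℂ) : ℂ := Complex.exp (2 * Real.pi * I * (z.re * η.re + z.im * η.im : ℝ))

/-- The operator `T^n` exactly as in the frozen statement. -/
def Tn (n : ℕ) (f : ℂ → ℂ) (z : ℂ) : ℂ := ∫ ξ : ℂ,
  Complex.exp (2 * (Real.pi : ℂ) * Complex.I * ((z.re * ξ.re + z.im * ξ.im : ℝ) : ℂ)) *
    ((starRingEnd ℂ ξ / ξ) ^ n *
      ∫ w : ℂ, Complex.exp (-(2 * (Real.pi : ℂ) * Complex.I *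
        ((w.re * ξ.re + w.im * ξ.im : ℝ) : ℂ))) * f w)

end Helper72.BA
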